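import Pool.Agent.NH10.FH.Stm
import Pool.Agent.NH10.SV.RHu
import Pool.Agent.NH10.SV.Pe

/-!
# Project FH: a bound for the averages implies the Riemann hypothesis
-/

set_option autoImplicit false

open Filter Topology Set MeasureTheory

namespace Pool.Agent.NH17.FH

open Pool.Agent.NH10.SV Pool.Agent.NH10.FH

/-- the parameter of a window of logarithmic length `s` -/
noncomputable def ta (s : ℝ) : ℝ := 1 / (Real.exp s - 1)

lemma es_pos {s : ℝ} (hs : 0 < s) : 0 < Real.exp s - 1 := by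
  have := Real.add_one_lt_exp hs.ne'
  linarith

lemma ta_pos {s : ℝ} (hs : 0 < s) : 0 < ta s := div_pos one_pos (es_pos hs)

lemma div_ta (x s : ℝ) : x / ta s = x * (Real.exp s - 1) := by
  unfold ta
  rw [div_div_eq_mul_div, div_one]

/-- splitting of the windows -/
lemma Su_add {σ s t u : ℝ} (ht : Real.exp t = 1 + 1 / σ) :
    Su σ u = Su (ta s) u + Su (ta (t - s)) (u + s) := by
  unfold Su Sx
  have e1 : Real.exp u / ta s = Real.exp (u + s) - Real.exp u := by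
    rw [div_ta, Real.exp_add]
    ring
  have e2 : Real.exp (u + s) / ta (t - s) = Real.exp (u + t) - Real.exp (u + s) := by
    rw [div_ta, mul_sub, mul_one, ← Real.exp_add]
    congr 2
    ring
  have e3 : Real.exp u / σ = Real.exp (u + t) - Real.exp u := by
    rw [Real.exp_add, ht]
    ring
  rw [e1, e2, e3]
  have e4 : ∀ a b : ℝ, a + (b - a) = b := fun a b => by ring
  rw [e4, e4, e4]
  ring

lemma Qu_split {σ s t : ℝ} (ht : Real.exp t = 1 + 1 / σ) (u : ℝ) :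
    Qu σ u ≤ 2 * Qu (ta s) u + 2 * Real.exp s * Qu (ta (t - s)) (u + s) := by
  unfold Qu
  rw [Su_add (s := s) ht]
  obtain ⟨a, ha⟩ : ∃ a, a = Su (ta s) u := ⟨_, rfl⟩
  obtain ⟨b, hb⟩ : ∃ b, b = Su (ta (t - s)) (u + s) := ⟨_, rfl⟩
  rw [← ha, ← hb]
  have e1 : 2 * Real.exp s * (Real.exp (-(u + s)) * b ^ 2) = 2 * (Real.exp (-u) * b ^ 2) := by
    have : Real.exp s * Real.exp (-(u + s)) = Real.exp (-u) := by
      rw [← Real.exp_add]
      congr 1
      ring
    calc 2 * Real.exp s * (Real.exp (-(u + s)) * b ^ 2)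
        = 2 * ((Real.exp s * Real.exp (-(u + s))) * b ^ 2) := by ring
      _ = _ := by rw [this]
  rw [e1]
  have h1 : (a + b) ^ 2 ≤ 2 * a ^ 2 + 2 * b ^ 2 := by nlinarith [sq_nonneg (a - b)]
  have h2 := mul_le_mul_of_nonneg_left h1 (Real.exp_pos (-u)).le
  linarith

lemma Gw_eq (τ β : ℝ) : Gw τ 0 β = ∫ u in (Real.log τ)..(Real.log τ + β), Qu τ u := by
  unfold Gw
  rw [intervalIntegral.integral_comp_add_right (fun u => Qu τ u) (Real.log τ), zero_add,
    add_comm β]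

lemma Gw_nonneg {τ β : ℝ} (hβ : 0 ≤ β) : 0 ≤ Gw τ 0 β :=
  intervalIntegral.integral_nonneg hβ fun _ _ => Qu_nonneg _ _

lemma Gw_le {τ β : ℝ} (hτ : 1 ≤ τ) (hβ : 0 ≤ β) : Gw τ 0 β ≤ 400 * Real.exp β * τ * β := by
  have h1 : ‖∫ v in (0 : ℝ)..β, Qu τ (v + Real.log τ)‖ ≤ (400 * Real.exp β * τ) * |β - 0| := by
    refine intervalIntegral.norm_integral_le_of_norm_le_const fun v hv => ?_
    rw [uIoc_of_le hβ] at hv
    rw [Real.norm_of_nonneg (Qu_nonneg _ _)]
    refine (Qu_le hτ _).trans ?_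
    rw [Real.exp_add, Real.exp_log (by linarith)]
    have h2 := Real.exp_le_exp.2 hv.2
    have h3 : Real.exp v * τ ≤ Real.exp β * τ := mul_le_mul_of_nonneg_right h2 (by linarith)
    linarith
  rw [sub_zero, abs_of_nonneg hβ] at h1
  exact (le_abs_self _).trans h1

/-- the mean square for one window in terms of those for two shorter ones -/
lemma N_le {σ s t A A' β : ℝ} (hσ : 1 ≤ σ) (ht : Real.exp t = 1 + 1 / σ) (hAA : A ≤ A')
    (hτ : 1 ≤ ta s) (hτ' : 1 ≤ ta (t - s)) (h1 : Real.log (ta s) ≤ A)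
    (h2 : A' ≤ Real.log (ta s) + β) (h3 : Real.log (ta (t - s)) ≤ A + s)
    (h4 : A' + s ≤ Real.log (ta (t - s)) + β) :
    ∫ u in A..A', Qu σ u ≤ 2 * Gw (ta s) 0 β + 2 * Real.exp s * Gw (ta (t - s)) 0 β := by
  have hsh : ∫ u in A..A', Qu (ta (t - s)) (u + s) = ∫ u in (A + s)..(A' + s), Qu (ta (t - s)) u :=
    intervalIntegral.integral_comp_add_right (fun u => Qu (ta (t - s)) u) s
  have i1 := Qu_ii hσ A A'
  have i2 := Qu_ii hτ A A'
  have i3 : IntervalIntegrable (fun u => Qu (ta (t - s)) (u + s)) volume A A' := by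
    have := (Qu_ii hτ' (A + s) (A' + s)).comp_add_right s
    rwa [add_sub_cancel_right, add_sub_cancel_right] at this
  have h5 : ∫ u in A..A', Qu σ u ≤
      ∫ u in A..A', (2 * Qu (ta s) u + 2 * Real.exp s * Qu (ta (t - s)) (u + s)) :=
    intervalIntegral.integral_mono_on hAA i1 ((i2.const_mul 2).add (i3.const_mul _))
      fun u _ => Qu_split ht u
  rw [intervalIntegral.integral_add (i2.const_mul 2) (i3.const_mul _),
    intervalIntegral.integral_const_mul, intervalIntegral.integral_const_mul, hsh] at h5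
  have h6 : ∫ u in A..A', Qu (ta s) u ≤ Gw (ta s) 0 β := by
    rw [Gw_eq]
    exact intervalIntegral.integral_mono_interval h1 hAA h2
      (Eventually.of_forall fun _ => Qu_nonneg _ _) (Qu_ii hτ _ _)
  have h7 : ∫ u in (A + s)..(A' + s), Qu (ta (t - s)) u ≤ Gw (ta (t - s)) 0 β := by
    rw [Gw_eq]
    exact intervalIntegral.integral_mono_interval h3 (by linarith) h4
      (Eventually.of_forall fun _ => Qu_nonneg _ _) (Qu_ii hτ' _ _)
  have h8 : 2 * Real.exp s * ∫ u in (A + s)..(A' + s), Qu (ta (t - s)) u ≤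
      2 * Real.exp s * Gw (ta (t - s)) 0 β :=
    mul_le_mul_of_nonneg_left h7 (by have := Real.exp_pos s; linarith)
  linarith

lemma ta_deriv {s : ℝ} (hs : 0 < s) :
    HasDerivAt ta (-(Real.exp s) / (Real.exp s - 1) ^ 2) s := by
  have h1 := ((Real.hasDerivAt_exp s).sub_const 1).inv (es_pos hs).ne'
  have h2 : ta = fun s => (Real.exp s - 1)⁻¹ := by
    funext s
    unfold ta
    rw [one_div]
  rw [h2]
  exact h1

lemma ta_inj {s s' : ℝ} (h : ta s = ta s') : s = s' := by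
  unfold ta at h
  rw [one_div, one_div, inv_inj] at h
  exact Real.exp_injective (by linarith)

lemma ta_meas : Measurable ta := by
  unfold ta
  fun_prop

/-- the length of the windows -/
lemma t_ge {σ t : ℝ} (hσ : 1 ≤ σ) (ht : Real.exp t = 1 + 1 / σ) : 1 / (σ + 1) ≤ t := by
  have h1 := Real.add_one_le_exp (-t)
  rw [Real.exp_neg, ht] at h1
  have h2 : (1 + 1 / σ)⁻¹ = 1 - 1 / (σ + 1) := by
    field_simp
    ring
  rw [h2] at h1
  linarith

lemma ta_bounds {σ t θ : ℝ} (hσ : 1 ≤ σ) (ht : Real.exp t = 1 + 1 / σ) (hθ0 : 0 < θ)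
    (hθ1 : θ ≤ 1) : σ / θ ≤ ta (θ * t) ∧ ta (θ * t) ≤ (σ + 1) / θ := by
  have hσ0 : 0 < σ := by linarith
  have h0 := t_ge hσ ht
  have ht0 : 0 < t := lt_of_lt_of_le (by positivity) h0
  have hp := es_pos (mul_pos hθ0 ht0)
  have h1 : Real.exp (θ * t) ≤ 1 + θ * (1 / σ) := by
    rw [mul_comm, Real.exp_mul, ht]
    exact rpow_one_add_le_one_add_mul_self (by
      have : 0 < 1 / σ := by positivity
      linarith) hθ0.le hθ1
  have h2 := Real.add_one_le_exp (θ * t)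
  have h3 : θ * (1 / (σ + 1)) ≤ θ * t := mul_le_mul_of_nonneg_left h0 hθ0.le
  constructor
  · unfold ta
    rw [le_div_iff₀ hp]
    have h4 : σ / θ * (Real.exp (θ * t) - 1) ≤ σ / θ * (θ * (1 / σ)) :=
      mul_le_mul_of_nonneg_left (by linarith) (by positivity)
    have h5 : σ / θ * (θ * (1 / σ)) = 1 := by field_simp
    linarith
  · unfold ta
    rw [div_le_iff₀ hp]
    have h4 : (σ + 1) / θ * (θ * (1 / (σ + 1))) ≤ (σ + 1) / θ * (Real.exp (θ * t) - 1) :=
      mul_le_mul_of_nonneg_left (by linarith) (by positivity)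
    have h5 : (σ + 1) / θ * (θ * (1 / (σ + 1))) = 1 := by field_simp
    linarith

/-- the parameters of the windows -/
lemma ta_win {σ c t k T s : ℝ} (h20 : 20 ≤ σ) (hc0 : 0 < c) (hc1 : c < 1) (hk : k = (1 - c) / 16)
    (hTe : T * (1 + c) = 4 * σ) (h4c : 4 ≤ σ * (1 - c)) (hts : Real.exp t = 1 + 1 / σ) (ht0 : 0 < t)
    (hs₁ : (1 / 2 - k) * t ≤ s) (hs₂ : s ≤ (1 / 2 + k) * t) :
    σ ≤ ta s ∧ c * T - 1 / 2 < ta s ∧ ta s ≤ T - 1 / 2 ∧ ta s ≤ Real.exp 1 * σ := by
  have hσ0 : 0 < σ := by linarith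
  have hσ1 : 1 ≤ σ := by linarith
  have hk0 : 0 < k := by rw [hk]; linarith
  have hk1 : k < 1 / 16 := by rw [hk]; linarith
  have hs0 : 0 < s := lt_of_lt_of_le (mul_pos (by linarith) ht0) hs₁
  obtain ⟨θ, hθ⟩ : ∃ θ : ℝ, θ = s / t := ⟨_, rfl⟩
  have hst : s = θ * t := by rw [hθ]; field_simp
  have hθ1 : 1 / 2 - k ≤ θ := by
    rw [hθ, le_div_iff₀ ht0]
    exact hs₁
  have hθ2 : θ ≤ 1 / 2 + k := by
    rw [hθ, div_le_iff₀ ht0]
    exact hs₂
  have hθ0 : 0 < θ := by linarith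
  obtain ⟨b1, b2⟩ := ta_bounds hσ1 hts hθ0 (by linarith)
  rw [← hst] at b1 b2
  rw [div_le_iff₀ hθ0] at b1
  rw [le_div_iff₀ hθ0] at b2
  have hta0 : 0 < ta s := ta_pos hs0
  have b3 : σ ≤ ta s * (1 / 2 + k) := b1.trans (mul_le_mul_of_nonneg_left hθ2 hta0.le)
  have b4 : ta s * (1 / 2 - k) ≤ σ + 1 := (mul_le_mul_of_nonneg_left hθ1 hta0.le).trans b2
  have he := Real.exp_one_gt_d9
  refine ⟨?_, ?_, ?_, ?_⟩
  · refine b3.trans ?_
    have h1 := mul_le_mul_of_nonneg_left (show 1 / 2 + k ≤ 1 by linarith) hta0.le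
    linarith
  · have h1 : c * T * (1 / 2 + k) ≤ σ := by
      have h2 : c * T * (1 / 2 + k) * (1 + c) = σ * (c * (1 / 2 + k) * 4) := by
        have e : c * T * (1 / 2 + k) * (1 + c) = c * (1 / 2 + k) * (T * (1 + c)) := by ring
        rw [e, hTe]
        ring
      have h3 : c * (1 / 2 + k) * 4 ≤ 1 + c := by
        rw [hk]
        have h5 : 0 ≤ (1 - c) * (1 - c / 4) := mul_nonneg (by linarith) (by linarith)
        linarith
      have h4 : c * T * (1 / 2 + k) * (1 + c) ≤ σ * (1 + c) := by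
        rw [h2]
        exact mul_le_mul_of_nonneg_left h3 hσ0.le
      exact le_of_mul_le_mul_right h4 (by linarith)
    have h5 : c * T * (1 / 2 + k) ≤ ta s * (1 / 2 + k) := h1.trans b3
    have h6 : c * T ≤ ta s := le_of_mul_le_mul_right h5 (by linarith)
    linarith
  · have h1 : (σ + 1) ≤ (T - 1 / 2) * (1 / 2 - k) := by
      have h2 : (T * (1 / 2 - k)) * (1 + c) = 4 * σ * (1 / 2 - k) := by
        have e : (T * (1 / 2 - k)) * (1 + c) = (T * (1 + c)) * (1 / 2 - k) := by ring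
        rw [e, hTe]
      have h4 : (σ + 1 + 1 / 4) * (1 + c) ≤ 4 * σ * (1 / 2 - k) := by
        rw [hk]
        have e1 : (σ + 1 + 1 / 4) * (1 + c) = 2 * σ - σ * (1 - c) + 5 / 4 * (1 + c) := by ring
        have e2 : 4 * σ * (1 / 2 - (1 - c) / 16) = 2 * σ - σ * (1 - c) / 4 := by ring
        rw [e1, e2]
        linarith
      have h5 : (σ + 1 + 1 / 4) * (1 + c) ≤ (T * (1 / 2 - k)) * (1 + c) := by
        rw [h2]
        exact h4
      have h6 := le_of_mul_le_mul_right h5 (by linarith)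
      have e3 : (T - 1 / 2) * (1 / 2 - k) = T * (1 / 2 - k) - (1 / 2 - k) / 2 := by ring
      rw [e3]
      linarith
    have h7 := b4.trans h1
    exact le_of_mul_le_mul_right h7 (by linarith)
  · have h1 : ta s * (7 / 16) ≤ ta s * (1 / 2 - k) :=
      mul_le_mul_of_nonneg_left (by linarith) hta0.le
    have h2 : 2.7 * σ ≤ Real.exp 1 * σ := mul_le_mul_of_nonneg_right (by linarith) hσ0.le
    have h3 : ta s ≤ 2.7 * σ := by
      norm_num
      linarith
    linarith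

section

variable (hm : ∀ α β : ℝ, Measurable fun τ => Gw τ α β) {β : ℝ} (hβ : 0 ≤ β)
include hm hβ

lemma int_big {a b : ℝ} (ha : 1 ≤ a) (hab : a ≤ b) :
    IntegrableOn (fun τ => τ * Gw τ 0 β) (Ioc a b) := by
  refine Measure.integrableOn_of_bounded (M := b * (400 * Real.exp β * b * β))
    measure_Ioc_lt_top.ne (measurable_id.mul (hm 0 β)).aestronglyMeasurable ?_
  refine (ae_restrict_mem measurableSet_Ioc).mono fun τ hτ => ?_
  have h1 : 1 ≤ τ := by linarith [hτ.1]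
  rw [Real.norm_of_nonneg (mul_nonneg (by linarith) (Gw_nonneg hβ))]
  have h2 := Gw_le h1 hβ
  have h3 : 400 * Real.exp β * τ * β ≤ 400 * Real.exp β * b * β := by
    have := Real.exp_pos β
    have h4 : τ * (400 * Real.exp β * β) ≤ b * (400 * Real.exp β * β) :=
      mul_le_mul_of_nonneg_right hτ.2 (by positivity)
    linarith
  exact mul_le_mul hτ.2 (h2.trans h3) (Gw_nonneg hβ) (by linarith)

lemma int_f {s₁ s₂ M : ℝ} (h12 : s₁ ≤ s₂) (h : ∀ s ∈ Icc s₁ s₂, 1 ≤ ta s ∧ ta s ≤ M) :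
    IntervalIntegrable (fun s => Gw (ta s) 0 β) volume s₁ s₂ := by
  rw [intervalIntegrable_iff_integrableOn_Ioc_of_le h12]
  refine Measure.integrableOn_of_bounded (M := 400 * Real.exp β * M * β)
    measure_Ioc_lt_top.ne ((hm 0 β).comp ta_meas).aestronglyMeasurable ?_
  refine (ae_restrict_mem measurableSet_Ioc).mono fun s hs => ?_
  obtain ⟨h1, h2⟩ := h s (Ioc_subset_Icc_self hs)
  have h3 := Gw_le h1 hβ
  show ‖Gw (ta s) 0 β‖ ≤ _
  rw [Real.norm_of_nonneg (Gw_nonneg hβ)]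
  have h4 : ta s * (400 * Real.exp β * β) ≤ M * (400 * Real.exp β * β) :=
    mul_le_mul_of_nonneg_right h2 (by have := Real.exp_pos β; positivity)
  linarith

/-- change of variables -/
lemma cov {σ s₁ s₂ a b M : ℝ} (hσ : 1 ≤ σ) (hs₁ : 0 < s₁) (h12 : s₁ ≤ s₂) (ha : 1 ≤ a)
    (hab : a ≤ b) (hM : ∀ s ∈ Icc s₁ s₂, ta s ≤ M)
    (h : ∀ s ∈ Icc s₁ s₂, σ ≤ ta s ∧ a < ta s ∧ ta s ≤ b) :
    σ ^ 3 * ∫ s in s₁..s₂, Gw (ta s) 0 β ≤ ∫ τ in a..b, τ * Gw τ 0 β := by
  have hpos : ∀ s ∈ Ioc s₁ s₂, 0 < s := fun s hs => hs₁.trans hs.1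
  have himg : ta '' Ioc s₁ s₂ ⊆ Ioc a b := by
    rintro _ ⟨s, hs, rfl⟩
    exact ⟨(h s (Ioc_subset_Icc_self hs)).2.1, (h s (Ioc_subset_Icc_self hs)).2.2⟩
  have hbig := int_big hm hβ ha hab
  have hder : ∀ s ∈ Ioc s₁ s₂,
      HasDerivWithinAt ta (-(Real.exp s) / (Real.exp s - 1) ^ 2) (Ioc s₁ s₂) s :=
    fun s hs => (ta_deriv (hpos s hs)).hasDerivWithinAt
  have hinj : InjOn ta (Ioc s₁ s₂) := fun s _ s' _ h => ta_inj h
  have h1 := integral_image_eq_integral_abs_deriv_smul measurableSet_Ioc hder hinj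
    (fun τ => τ * Gw τ 0 β)
  have h2 := (integrableOn_image_iff_integrableOn_abs_deriv_smul measurableSet_Ioc hder hinj
    (fun τ => τ * Gw τ 0 β)).1 (hbig.mono_set himg)
  have h3 : ∫ τ in ta '' Ioc s₁ s₂, τ * Gw τ 0 β ≤ ∫ τ in Ioc a b, τ * Gw τ 0 β := by
    refine setIntegral_mono_set hbig ?_ (Eventually.of_forall himg)
    refine (ae_restrict_mem measurableSet_Ioc).mono fun τ hτ => ?_
    exact mul_nonneg (by linarith [hτ.1]) (Gw_nonneg hβ)
  have hif := int_f hm hβ h12 (fun s hs => ⟨hσ.trans (h s hs).1, hM s hs⟩)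
  rw [intervalIntegral.integral_of_le h12, intervalIntegral.integral_of_le hab,
    ← integral_const_mul]
  rw [intervalIntegrable_iff_integrableOn_Ioc_of_le h12] at hif
  refine le_trans ?_ h3
  rw [h1]
  refine setIntegral_mono_on (hif.const_mul _) h2 measurableSet_Ioc fun s hs => ?_
  have hp := es_pos (hpos s hs)
  have h4 : |-(Real.exp s) / (Real.exp s - 1) ^ 2| • (ta s * Gw (ta s) 0 β) =
      (Real.exp s * ta s ^ 3) * Gw (ta s) 0 β := by
    rw [abs_div, abs_neg, abs_of_pos (Real.exp_pos s), abs_of_pos (by positivity), smul_eq_mul]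
    unfold ta
    field_simp
  rw [h4]
  refine mul_le_mul_of_nonneg_right ?_ (Gw_nonneg hβ)
  have h5 : σ ^ 3 ≤ ta s ^ 3 := pow_le_pow_left₀ (by linarith) (h s (Ioc_subset_Icc_self hs)).1 3
  have h6 : 1 ≤ Real.exp s := by
    have := hpos s hs
    exact Real.one_le_exp this.le
  have h7 : 0 ≤ ta s ^ 3 := by
    have := ta_pos (hpos s hs)
    positivity
  nlinarith

end

theorem t_RHW : S_RHW := by
  intro hF c hc0 hc1 h
  obtain ⟨hm, hform⟩ := hF
  refine RH_of_var fun B hB => ?_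
  obtain ⟨C₁, T₁, hT₁⟩ := h (B + 2) (by linarith)
  obtain ⟨δ, hδ0, hδ1, hnear⟩ := near_sharp (ε := 1) one_pos
  obtain ⟨C₂, hC₂⟩ : ∃ C₂ : ℝ, C₂ = max C₁ 0 := ⟨_, rfl⟩
  have hC20 : 0 ≤ C₂ := by rw [hC₂]; exact le_max_right _ _
  have hC21 : C₁ ≤ C₂ := by rw [hC₂]; exact le_max_left _ _
  obtain ⟨k, hk⟩ : ∃ k : ℝ, k = (1 - c) / 16 := ⟨_, rfl⟩
  have hk0 : 0 < k := by rw [hk]; linarith
  have hk1 : k < 1 / 16 := by rw [hk]; linarith
  refine ⟨1 + 96 * C₂ / k, ?_⟩
  suffices hev : ∀ᶠ σ in atTop, Js σ 1 B ≤ 1 + 96 * C₂ / k from eventually_atTop.1 hev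
  filter_upwards [hnear, eventually_ge_atTop (20 : ℝ), eventually_ge_atTop (4 / (1 - c)),
    eventually_ge_atTop T₁, eventually_ge_atTop (10 / c),
    Real.tendsto_log_atTop.eventually_ge_atTop (1 / (B - 1))] with σ hn h20 h4c hσT h10 hlog
  have hσ0 : 0 < σ := by linarith
  have hσ1 : 1 ≤ σ := by linarith
  have hlog1 : 1 ≤ Real.log σ := by
    rw [Real.le_log_iff_exp_le hσ0]
    have := Real.exp_one_lt_d9
    linarith
  have hlog0 : 0 < Real.log σ := by linarith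
  -- the parameter of the average
  obtain ⟨T, hT⟩ : ∃ T : ℝ, T = 4 * σ / (1 + c) := ⟨_, rfl⟩
  have hTe : T * (1 + c) = 4 * σ := by
    rw [hT]
    field_simp
  have hT2 : 2 * σ ≤ T := by
    rw [hT, le_div_iff₀ (by linarith)]
    have := mul_le_mul_of_nonneg_left hc1.le hσ0.le
    linarith
  have hT4 : T ≤ 4 * σ := by
    rw [hT, div_le_iff₀ (by linarith)]
    have := mul_nonneg hσ0.le hc0.le
    linarith
  have hT0' : 0 ≤ T := by linarith
  have hcT : 10 ≤ c * T := by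
    rw [div_le_iff₀ hc0] at h10
    have := mul_le_mul_of_nonneg_left hT2 hc0.le
    linarith
  have hlT : Real.log T ≤ 2 * Real.log σ := by
    have h1 : T ≤ σ ^ 2 := by
      have := mul_le_mul_of_nonneg_right (show 4 ≤ σ by linarith) hσ0.le
      rw [sq]
      linarith
    have h2 := Real.log_le_log (by linarith) h1
    rwa [Real.log_pow] at h2
  have hlT' : Real.log σ ≤ Real.log T := Real.log_le_log hσ0 (by linarith)
  obtain ⟨β, hβ⟩ : ∃ β : ℝ, β = (B + 2 - 1) * Real.log T := ⟨_, rfl⟩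
  have hβ1 : B * Real.log σ + 1 ≤ β := by
    rw [hβ]
    have : (B + 2 - 1) * Real.log σ ≤ (B + 2 - 1) * Real.log T :=
      mul_le_mul_of_nonneg_left hlT' (by linarith)
    linarith
  have hβ0 : 0 ≤ β := by
    have := mul_nonneg (show 0 ≤ B by linarith) hlog0.le
    linarith
  -- the formula
  have hW : ∫ τ in (c * T - 1 / 2)..(T - 1 / 2), τ * Gw τ 0 β ≤
      4 * σ * (4 * Real.log σ ^ 2) * C₂ := by
    have h1 := hform c T 1 (B + 2) hc0 hc1 hcT le_rfl (by linarith)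
    have h2 := hT₁ T (by linarith)
    rw [h1, sub_self, zero_mul, ← hβ] at h2
    have hlTp : 0 < Real.log T := by linarith
    have hT0 : 0 < T := by linarith
    have hcc : 0 < 1 - c := by linarith
    have h3 : 0 < (1 - c) * T * Real.log T ^ 2 := by positivity
    rw [one_div, inv_mul_le_iff₀ h3] at h2
    refine h2.trans ?_
    have h4 : (1 - c) * T ≤ 4 * σ := by
      have := mul_nonneg hc0.le hT0'
      linarith
    have h5 : Real.log T ^ 2 ≤ 4 * Real.log σ ^ 2 := by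
      have := pow_le_pow_left₀ hlTp.le hlT 2
      rw [mul_pow] at this
      linarith
    have h6 : (1 - c) * T * Real.log T ^ 2 ≤ 4 * σ * (4 * Real.log σ ^ 2) :=
      mul_le_mul h4 h5 (by positivity) (by positivity)
    calc (1 - c) * T * Real.log T ^ 2 * C₁ ≤ (1 - c) * T * Real.log T ^ 2 * C₂ :=
          mul_le_mul_of_nonneg_left hC21 h3.le
      _ ≤ _ := mul_le_mul_of_nonneg_right h6 hC20
  -- the windows
  obtain ⟨t, ht⟩ : ∃ t : ℝ, t = Real.log (1 + 1 / σ) := ⟨_, rfl⟩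
  have hs1 : 0 < 1 / σ := by positivity
  have hts : Real.exp t = 1 + 1 / σ := by rw [ht]; exact Real.exp_log (by linarith)
  have htg := t_ge hσ1 hts
  have ht0 : 0 < t := lt_of_lt_of_le (by positivity) htg
  have ht1 : t ≤ 1 := by
    rw [ht]
    have h1 := Real.log_le_sub_one_of_pos (show 0 < 1 + 1 / σ by linarith)
    have h2 : 1 / σ ≤ 1 := by
      rw [div_le_one hσ0]
      exact hσ1
    linarith
  obtain ⟨s₁, hs₁⟩ : ∃ s₁ : ℝ, s₁ = (1 / 2 - k) * t := ⟨_, rfl⟩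
  obtain ⟨s₂, hs₂⟩ : ∃ s₂ : ℝ, s₂ = (1 / 2 + k) * t := ⟨_, rfl⟩
  have h12 : s₁ ≤ s₂ := by
    rw [hs₁, hs₂]
    exact mul_le_mul_of_nonneg_right (by linarith) ht0.le
  have hs10 : 0 < s₁ := by rw [hs₁]; exact mul_pos (by linarith) ht0
  have hrefl : s₁ + s₂ = t := by rw [hs₁, hs₂]; ring
  -- the parameters of the windows
  have h4c' : 4 ≤ σ * (1 - c) := by
    rw [div_le_iff₀ (by linarith)] at h4c
    exact h4c
  have hta : ∀ s ∈ Icc s₁ s₂, σ ≤ ta s ∧ c * T - 1 / 2 < ta s ∧ ta s ≤ T - 1 / 2 ∧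
      ta s ≤ Real.exp 1 * σ := fun s hs =>
    ta_win h20 hc0 hc1 hk hTe h4c' hts ht0 (by rw [← hs₁]; exact hs.1) (by rw [← hs₂]; exact hs.2)
  obtain ⟨A, hA⟩ : ∃ A : ℝ, A = Real.log σ + 1 := ⟨_, rfl⟩
  obtain ⟨A', hA'⟩ : ∃ A' : ℝ, A' = B * Real.log σ := ⟨_, rfl⟩
  have hAA : A ≤ A' := by
    rw [hA, hA']
    rw [div_le_iff₀ (by linarith)] at hlog
    linarith
  obtain ⟨N, hN⟩ : ∃ N : ℝ, N = ∫ u in A..A', Qu σ u := ⟨_, rfl⟩
  have hpt : ∀ s ∈ Icc s₁ s₂, N ≤ 2 * Gw (ta s) 0 β + 4 * Gw (ta (t - s)) 0 β := by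
    intro s hs
    have hs' : t - s ∈ Icc s₁ s₂ := ⟨by linarith [hs.2], by linarith [hs.1]⟩
    obtain ⟨a1, a2, a3, a4⟩ := hta s hs
    obtain ⟨b1, b2, b3, b4⟩ := hta (t - s) hs'
    have hsp : 0 < s := hs10.trans_le hs.1
    have l1 : ∀ x : ℝ, σ ≤ x → Real.log σ ≤ Real.log x := fun x hx => Real.log_le_log hσ0 hx
    have l2 : ∀ x : ℝ, 0 < x → x ≤ Real.exp 1 * σ → Real.log x ≤ A := by
      intro x hx0 hx
      have h1 := Real.log_le_log hx0 hx
      rw [Real.log_mul (Real.exp_pos 1).ne' hσ0.ne', Real.log_exp] at h1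
      rw [hA]
      linarith
    have hst : s ≤ t := by
      have := hs'.1
      linarith
    have h1 := N_le hσ1 hts hAA (hσ1.trans a1) (hσ1.trans b1) (β := β) (l2 _ (by linarith) a4)
      (by have := l1 _ a1; rw [hA']; linarith)
      (by have := l2 _ (by linarith) b4; linarith)
      (by have := l1 _ b1; rw [hA']; linarith)
    rw [← hN] at h1
    have h2 : Real.exp s ≤ 2 := by
      have h3 := Real.exp_le_exp.2 hst
      rw [hts] at h3
      have h4 : 1 / σ ≤ 1 := by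
        rw [div_le_one hσ0]
        exact hσ1
      linarith
    have h3 : 2 * Real.exp s * Gw (ta (t - s)) 0 β ≤ 4 * Gw (ta (t - s)) 0 β :=
      mul_le_mul_of_nonneg_right (by linarith) (Gw_nonneg hβ0)
    linarith
  -- integration
  have hif := int_f hm hβ0 h12 (M := T - 1 / 2)
    (fun s hs => ⟨hσ1.trans (hta s hs).1, (hta s hs).2.2.1⟩)
  have hif' : IntervalIntegrable (fun s => Gw (ta (t - s)) 0 β) volume s₁ s₂ := by
    have h1 := hif.comp_sub_left t
    have e1 : t - s₁ = s₂ := by linarith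
    have e2 : t - s₂ = s₁ := by linarith
    rw [e1, e2] at h1
    exact h1.symm
  have hint : (s₂ - s₁) * N ≤ 6 * ∫ s in s₁..s₂, Gw (ta s) 0 β := by
    have h1 : ∫ s in s₁..s₂, N ≤
        ∫ s in s₁..s₂, (2 * Gw (ta s) 0 β + 4 * Gw (ta (t - s)) 0 β) :=
      intervalIntegral.integral_mono_on h12 intervalIntegrable_const
        ((hif.const_mul 2).add (hif'.const_mul 4)) hpt
    rw [intervalIntegral.integral_const, smul_eq_mul,
      intervalIntegral.integral_add (hif.const_mul 2) (hif'.const_mul 4),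
      intervalIntegral.integral_const_mul, intervalIntegral.integral_const_mul,
      intervalIntegral.integral_comp_sub_left (fun s => Gw (ta s) 0 β) t] at h1
    have e1 : t - s₁ = s₂ := by linarith
    have e2 : t - s₂ = s₁ := by linarith
    rw [e1, e2] at h1
    linarith
  have hcov := cov hm hβ0 hσ1 hs10 h12 (a := c * T - 1 / 2) (b := T - 1 / 2) (M := T - 1 / 2)
    (by linarith) (by have := mul_le_mul_of_nonneg_right hc1.le hT0'; linarith)
    (fun s hs => (hta s hs).2.2.1)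
    (fun s hs => ⟨(hta s hs).1, (hta s hs).2.1, (hta s hs).2.2.1⟩)
  have hN0 : 0 ≤ N := by
    rw [hN]
    exact intervalIntegral.integral_nonneg hAA fun _ _ => Qu_nonneg _ _
  -- the bound for N
  have hlen : k / σ ≤ s₂ - s₁ := by
    have h1 : s₂ - s₁ = 2 * k * t := by rw [hs₁, hs₂]; ring
    rw [h1, div_le_iff₀ hσ0]
    have h2 : 1 / 2 ≤ t * σ := by
      rw [div_le_iff₀ (by linarith)] at htg
      have := mul_le_mul_of_nonneg_left h20 ht0.le
      linarith
    have := mul_le_mul_of_nonneg_left h2 hk0.le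
    linarith
  have hNb : σ * N ≤ 96 * C₂ / k * Real.log σ ^ 2 := by
    have h1 : k / σ * N ≤ 6 * ∫ s in s₁..s₂, Gw (ta s) 0 β :=
      (mul_le_mul_of_nonneg_right hlen hN0).trans hint
    have h2 : σ ^ 3 * (k / σ * N) ≤ 6 * (4 * σ * (4 * Real.log σ ^ 2) * C₂) := by
      have h3 : σ ^ 3 * (k / σ * N) ≤ σ ^ 3 * (6 * ∫ s in s₁..s₂, Gw (ta s) 0 β) :=
        mul_le_mul_of_nonneg_left h1 (by positivity)
      have h4 := hcov.trans hW
      have e : σ ^ 3 * (6 * ∫ s in s₁..s₂, Gw (ta s) 0 β) =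
        6 * (σ ^ 3 * ∫ s in s₁..s₂, Gw (ta s) 0 β) := by ring
      rw [e] at h3
      linarith
    have h5 : σ ^ 3 * (k / σ * N) = σ * (k * (σ * N)) := by
      field_simp
    have h6 : σ * (k * (σ * N)) ≤ σ * (96 * Real.log σ ^ 2 * C₂) := by
      rw [← h5]
      refine h2.trans (le_of_eq ?_)
      ring
    have h7 := le_of_mul_le_mul_left h6 hσ0
    have h8 : 96 * C₂ / k * Real.log σ ^ 2 = (96 * Real.log σ ^ 2 * C₂) / k := by ring
    rw [h8, le_div_iff₀ hk0]
    linarith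
  -- conclusion
  rw [Js_eq (by linarith) hB.le, one_mul]
  have e1 : ∫ u in (Real.log σ)..(B * Real.log σ), Real.exp (-u) * Su σ u ^ 2 =
      (∫ u in (Real.log σ)..A, Qu σ u) + N := by
    rw [hN, hA']
    exact (intervalIntegral.integral_add_adjacent_intervals (Qu_ii hσ1 _ _)
      (Qu_ii hσ1 _ _)).symm
  rw [e1, mul_add]
  have hp : 0 < σ / Real.log σ ^ 2 := by positivity
  have h1 : σ / Real.log σ ^ 2 * ∫ u in (Real.log σ)..A, Qu σ u ≤ 1 := by
    refine le_trans (mul_le_mul_of_nonneg_left ?_ hp.le) hn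
    rw [hA]
    refine intervalIntegral.integral_mono_interval ?_ (by linarith) le_rfl
      (Eventually.of_forall fun _ => Qu_nonneg _ _) (Qu_ii hσ1 _ _)
    have := mul_nonneg hδ0.le hlog0.le
    linarith
  have h2 : σ / Real.log σ ^ 2 * N ≤ 96 * C₂ / k := by
    have h3 : σ / Real.log σ ^ 2 * N = (σ * N) / Real.log σ ^ 2 := by ring
    rw [h3, div_le_iff₀ (by positivity)]
    exact hNb
  linarith

end Pool.Agent.NH17.FH
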